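import Mathlib

/-!
# The congruences for the sums of `C(-1/3, k) C(-1/6, k) / (-16)^k` fail at the prime `17`

`S₁(p)` and `S₂(p)` are the two sums of the question, and the question is whether the chain of two
congruences `S₁(p) ≡ (17/p) ε_p S₂(p) ≡ R(p)` holds for EVERY prime `p > 3` in the three cases
(`4 p = x² + 51 y²`, `4 p = 17 x² + 3 y²`, `(p/3) = - (p/17) = 1`). The prime `17` is in the second
case, with `x = ± 2` and `y = 0`, and there both congruences modulo `17²` are false: `(17/17) = 0`, so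
that the middle term is `0`, but `S₁(17) ≡ 68` and `R(17) ≡ 102` modulo `289`. (The primes `p ≠ 17` are
not touched by this.)
-/

set_option autoImplicit false

namespace Pool.Agent.Results.MP_f496b1_nt.ConjectureFailsAt17

open Finset

/-- The binomial coefficient `a (a - 1) ⋯ (a - k + 1) / k!`. -/
def binom (a : ℚ) (k : ℕ) : ℚ := (∏ i ∈ range k, (a - i)) / (Nat.factorial k : ℚ)

/-- `S₁(p)`. -/
def S₁ (p : ℕ) : ℚ := ∑ k ∈ range p, binom (-1 / 3) k * binom (-1 / 6) k / (-16) ^ k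

/-- `S₂(p)`. -/
def S₂ (p : ℕ) : ℚ := ∑ k ∈ range p, binom (-2 / 3) k * binom (-5 / 6) k / (-16) ^ k

/-- `a ≡ b` modulo `p ^ n` in the localisation of `ℤ` at `p`: the difference is `p ^ n (s / t)` with
`t` prime to `p`. -/
def Cong (p n : ℕ) (a b : ℚ) : Prop := ∃ s t : ℤ, ¬ (p : ℤ) ∣ t ∧ a - b = (p : ℚ) ^ n * (s / t)

/-- `ε_p = (17/16)^((1 - (p/3)) / 2)`: `1` if `p ≡ 1 mod 3`, and `17 / 16` otherwise. -/
def eps (p : ℕ) : ℚ := if p % 3 = 1 then 1 else 17 / 16

/-- `S₁(p) ≡ (17/p) ε_p S₂(p) ≡ R` modulo `p ^ n`. -/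
def Chain (p n : ℕ) [Fact p.Prime] (R : ℚ) : Prop :=
  Cong p n (S₁ p) ((legendreSym p 17 : ℤ) * eps p * S₂ p) ∧
    Cong p n ((legendreSym p 17 : ℤ) * eps p * S₂ p) R

/-- The assertion of the question for the prime `p`. -/
def Holds (p : ℕ) [Fact p.Prime] : Prop :=
  (∀ x y : ℤ, 4 * (p : ℤ) = x ^ 2 + 51 * y ^ 2 →
    Chain p 2 (-(legendreSym 3 x : ℤ) * (x - p / x))) ∧
  (∀ x y : ℤ, 4 * (p : ℤ) = 17 * x ^ 2 + 3 * y ^ 2 →
    Chain p 2 (1 / 4 * (legendreSym 3 x : ℤ) * (17 * x - p / x))) ∧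
  (legendreSym 3 p = 1 → (p : ZMod 17) ≠ 0 → ¬ IsSquare (p : ZMod 17) → Chain p 1 0)

lemma S₁_17 : S₁ 17 =
    38878521654211103583505547395529851919376647001419 /
      39010794538760930098283544561653662229625997099008 := by
  simp only [S₁, binom, sum_range_succ, sum_range_zero, prod_range_succ, prod_range_zero,
    Nat.factorial, pow_succ, pow_zero]
  norm_num

lemma leg17 (h : Fact (Nat.Prime 17)) : legendreSym 17 17 = 0 := by
  rw [legendreSym.eq_zero_iff]
  rfl

lemma leg3 : legendreSym 3 2 = -1 := by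
  rw [legendreSym]
  decide

/-- **The assertion fails at the prime `17`, which is in the second case**; both congruences of the
chain fail there for `x = 2`, `y = 0`. -/
theorem result :
    (¬ ∀ (p : ℕ) [Fact p.Prime], 3 < p → Holds p) ∧
    ∀ _ : Fact (Nat.Prime 17), 4 * (17 : ℤ) = 17 * 2 ^ 2 + 3 * 0 ^ 2 ∧
      Cong 17 2 (S₁ 17) 68 ∧ ((legendreSym 17 17 : ℤ) : ℚ) * eps 17 * S₂ 17 = 0 ∧
      Cong 17 2 (1 / 4 * ((legendreSym 3 2 : ℤ) : ℚ) * (17 * 2 - 17 / 2)) 102 ∧
      ¬ Cong 17 2 (S₁ 17) (((legendreSym 17 17 : ℤ) : ℚ) * eps 17 * S₂ 17) ∧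
      ¬ Cong 17 2 (((legendreSym 17 17 : ℤ) : ℚ) * eps 17 * S₂ 17)
        (1 / 4 * ((legendreSym 3 2 : ℤ) : ℚ) * (17 * 2 - 17 / 2)) := by
  have key : ∀ _ : Fact (Nat.Prime 17), 4 * (17 : ℤ) = 17 * 2 ^ 2 + 3 * 0 ^ 2 ∧
      Cong 17 2 (S₁ 17) 68 ∧ ((legendreSym 17 17 : ℤ) : ℚ) * eps 17 * S₂ 17 = 0 ∧
      Cong 17 2 (1 / 4 * ((legendreSym 3 2 : ℤ) : ℚ) * (17 * 2 - 17 / 2)) 102 ∧
      ¬ Cong 17 2 (S₁ 17) (((legendreSym 17 17 : ℤ) : ℚ) * eps 17 * S₂ 17) ∧
      ¬ Cong 17 2 (((legendreSym 17 17 : ℤ) : ℚ) * eps 17 * S₂ 17)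
        (1 / 4 * ((legendreSym 3 2 : ℤ) : ℚ) * (17 * 2 - 17 / 2)) := by
    intro h
    refine ⟨by norm_num, ⟨-9044482723119488384428288867809408926280938255125,
      39010794538760930098283544561653662229625997099008, by norm_num, ?_⟩, ?_,
      ⟨-3, 8, by norm_num, ?_⟩, ?_, ?_⟩
    · rw [S₁_17]
      norm_num
    · rw [leg17 h]
      push_cast
      ring
    · rw [leg3]
      norm_num
    · rintro ⟨s, t, ht, he⟩
      have ht0 : (t : ℚ) ≠ 0 := by
        intro h0
        apply ht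
        have : t = 0 := by exact_mod_cast h0
        rw [this]
        exact dvd_zero _
      rw [leg17 h, S₁_17] at he
      push_cast at he
      rw [zero_mul, zero_mul, sub_zero, div_eq_iff (by norm_num)] at he
      field_simp at he
      have h2 : (38878521654211103583505547395529851919376647001419 : ℤ) * t =
          17 ^ 2 * s * 39010794538760930098283544561653662229625997099008 := by
        have h3 : (38878521654211103583505547395529851919376647001419 : ℚ) * t =
          17 ^ 2 * s * 39010794538760930098283544561653662229625997099008 := by linarith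
        exact_mod_cast h3
      have h4 : (17 : ℤ) ^ 2 ∣ 38878521654211103583505547395529851919376647001419 * t :=
        ⟨s * 39010794538760930098283544561653662229625997099008, by rw [h2]; ring⟩
      have h5 : IsCoprime ((17 : ℤ) ^ 2) t := by
        apply IsCoprime.pow_left
        exact (Prime.coprime_iff_not_dvd (by norm_num : Prime (17 : ℤ))).2 ht
      have h6 := h5.dvd_of_dvd_mul_right h4
      revert h6
      norm_num
    · rintro ⟨s, t, ht, he⟩
      have ht0 : (t : ℚ) ≠ 0 := by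
        intro h0
        apply ht
        have : t = 0 := by exact_mod_cast h0
        rw [this]
        exact dvd_zero _
      rw [leg17 h, leg3] at he
      push_cast at he
      field_simp at he
      have h2 : (51 : ℤ) * t = 17 ^ 2 * s * 8 := by
        have h3 : (51 : ℚ) * t = 17 ^ 2 * s * 8 := by linarith
        exact_mod_cast h3
      have h4 : (17 : ℤ) ^ 2 ∣ 51 * t := ⟨s * 8, by rw [h2]; ring⟩
      have h5 : IsCoprime ((17 : ℤ) ^ 2) t := by
        apply IsCoprime.pow_left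
        exact (Prime.coprime_iff_not_dvd (by norm_num : Prime (17 : ℤ))).2 ht
      have h6 := h5.dvd_of_dvd_mul_right h4
      revert h6
      norm_num
  refine ⟨fun hall => ?_, key⟩
  have h : Fact (Nat.Prime 17) := ⟨by norm_num⟩
  obtain ⟨-, h2, -⟩ := hall 17 (by norm_num)
  obtain ⟨h3, -⟩ := h2 2 0 (by norm_num)
  exact (key h).2.2.2.2.1 h3

end Pool.Agent.Results.MP_f496b1_nt.ConjectureFailsAt17
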